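import Pool.Agent.H94.InvF

/-!
A dynamical criterion: an involutive automorphism `F` fixing the origin, with linear part `L`, is
conjugate to `L` as soon as the iterates of `F L` have bounded degree.
-/

set_option autoImplicit false

namespace Pool.Agent.Results.MP_c3e981_ag.BoundedIterates

open MvPolynomial

/-- Let `F` be an involution fixing the origin and `L` its linear part. If the degrees of the
iterates of the product of `F` and `L` are bounded on each variable, then `F` is conjugate to
`L`. -/
theorem result (n : ℕ) (F L : MvPolynomial (Fin n) ℂ ≃ₐ[ℂ] MvPolynomial (Fin n) ℂ)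
    (hF : ∀ p : MvPolynomial (Fin n) ℂ, F (F p) = p)
    (h0 : ∀ i : Fin n, constantCoeff (F (X i)) = 0)
    (hL : ∀ i : Fin n, L (X i) = homogeneousComponent 1 (F (X i)))
    (hb : ∀ i : Fin n, ∃ D : ℕ, ∀ m : ℕ,
      ((fun p : MvPolynomial (Fin n) ℂ => F (L p))^[m] (X i)).totalDegree ≤ D) :
    ∃ G : MvPolynomial (Fin n) ℂ ≃ₐ[ℂ] MvPolynomial (Fin n) ℂ,
      ∀ p : MvPolynomial (Fin n) ℂ, G.symm (F (G p)) = L p := by
  have hit : ∀ (m : ℕ) (p : MvPolynomial (Fin n) ℂ),
      ((F * L) ^ m) p = (fun p : MvPolynomial (Fin n) ℂ => F (L p))^[m] p := by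
    intro m
    induction m with
    | zero => intro p; rfl
    | succ m ih =>
      intro p
      rw [pow_succ, Function.iterate_succ_apply]
      exact ih _
  obtain ⟨V, hV⟩ := Pool.Agent.H94.Inv.bounded_zero F (AlgEquiv.ext hF) h0 L hL (by
    intro i
    obtain ⟨D, hD⟩ := hb i
    refine ⟨D, fun m => ?_⟩
    rw [hit]
    exact hD m)
  exact ⟨V, fun p => DFunLike.congr_fun hV p⟩

end Pool.Agent.Results.MP_c3e981_ag.BoundedIterates
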